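import Pool.Agent.E8helper19.LC.Stm

/-!
# LC17: reversing the curve
-/

set_option autoImplicit false
open MeasureTheory Filter Topology Set Laplacian
open scoped ContDiff Real

namespace Pool.Agent.E8helper40.LC

open Pool.Agent.E8helper19.LC

noncomputable section

theorem rev_deriv (γ : ℝ → P) : deriv (fun s => γ (-s)) = fun s => -deriv γ (-s) := by
  funext s
  exact deriv_comp_neg γ s

theorem rev_deriv2 (γ : ℝ → P) (s : ℝ) :
    deriv (deriv (fun s => γ (-s))) s = deriv (deriv γ) (-s) := by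
  rw [rev_deriv]
  have h1 : deriv (fun s => -deriv γ (-s)) s = -deriv (fun s => deriv γ (-s)) s := by
    exact deriv.fun_neg
  rw [h1, deriv_comp_neg (deriv γ) s, neg_neg]

theorem rot_neg (v : P) : rot (-v) = -rot v := by
  ext i
  fin_cases i <;> simp [rot]

theorem pw_neg (k s : ℝ) : pw k (-s) = pw (-k) s := by
  unfold pw
  congr 1
  push_cast
  ring

theorem crv_rev {γ : ℝ → P} {L : ℝ} (h : Crv γ L) : Crv (fun s => γ (-s)) L := by
  refine ⟨h.pos, ?_, ?_, ?_, ?_, ?_⟩
  · exact h.smooth.comp contDiff_neg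
  · intro s
    rw [rev_deriv]
    simp only [norm_neg]
    exact h.unit (-s)
  · intro a b hab
    have := h.inj hab
    linarith
  · intro s hs
    have h1 := h.right (-s) (by linarith)
    rw [rev_deriv]
    simp only [neg_neg]
    rw [h1, smul_neg, ← neg_smul]
    congr 2
    ring
  · intro s hs
    have h1 := h.left (-s) (by linarith)
    rw [rev_deriv]
    simp only
    rw [h1, smul_neg, ← neg_smul]
    congr 2
    ring

theorem gef_rev {α k : ℝ} {γ : ℝ → P} {ψ : P → ℂ} (h : GEF α k γ ψ) :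
    GEF α k (fun s => γ (-s)) ψ := by
  refine ⟨h.cont, h.bdd, ?_⟩
  intro φ hφ hc
  have h1 := h.eq φ hφ hc
  have h2 : (∫ s, ψ (γ (-s)) * φ (γ (-s))) = ∫ s, ψ (γ s) * φ (γ s) :=
    integral_neg_eq_self (fun s => ψ (γ s) * φ (γ s)) volume
  rw [h2]
  exact h1

theorem asy_rev {α k : ℝ} {γ : ℝ → P} {ψ : P → ℂ} {F F' : Filter ℝ} {a b : ℂ}
    (hF : Tendsto (fun s : ℝ => -s) F' F) (h : Asy α k γ ψ F a b) :
    Asy α k (fun s => γ (-s)) ψ F' b a := by
  intro u
  have h1 := (h (-u)).comp hF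
  refine h1.congr ?_
  intro s
  simp only [Function.comp]
  rw [rev_deriv]
  simp only
  rw [rot_neg, smul_neg, pw_neg, pw_neg, neg_neg, abs_neg, neg_smul]
  congr 1
  ring

theorem asy1_rev {k : ℝ} {f : ℝ → ℂ} {F F' : Filter ℝ} {a b : ℂ}
    (hF : Tendsto (fun s : ℝ => -s) F' F) (h : Asy1 k f F a b) :
    Asy1 k (fun s => f (-s)) F' b a := by
  have h1 := Tendsto.comp h hF
  refine h1.congr ?_
  intro s
  simp only [Function.comp]
  rw [pw_neg, pw_neg, neg_neg]
  ring

theorem sol1_rev {k : ℝ} {V : ℝ → ℝ} {f : ℝ → ℂ} (h : Sol1 k V f) :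
    Sol1 k (fun s => V (-s)) (fun s => f (-s)) := by
  refine ⟨h.smooth.comp contDiff_neg, ?_⟩
  intro s
  have e1 : deriv (fun s => f (-s)) = fun s => -deriv f (-s) := by
    funext s
    exact deriv_comp_neg f s
  have e2 : deriv (deriv (fun s => f (-s))) s = deriv (deriv f) (-s) := by
    rw [e1]
    have h1 : deriv (fun s => -deriv f (-s)) s = -deriv (fun s => deriv f (-s)) s := by
      exact deriv.fun_neg
    rw [h1, deriv_comp_neg (deriv f) s, neg_neg]
  rw [e2]
  exact h.eq (-s)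

/-- LC17. Reversing the curve. -/
theorem t_REV : S_REV := by
  refine ⟨?_, ?_, ?_⟩
  · intro γ L h hne
    refine ⟨crv_rev h, ?_, ?_⟩
    · rw [rev_deriv]
      simp only [neg_neg]
      intro h2
      exact hne h2.symm
    · intro s
      unfold kap2
      rw [rev_deriv2]
  · intro α k γ ψ r t _
    constructor
    · rintro ⟨h1, h2, h3⟩
      exact ⟨gef_rev h1, asy_rev tendsto_neg_atBot_atTop h2, asy_rev tendsto_neg_atTop_atBot h3⟩
    · rintro ⟨h1, h2, h3⟩
      have g1 := gef_rev h1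
      have g2 := asy_rev tendsto_neg_atTop_atBot h2
      have g3 := asy_rev tendsto_neg_atBot_atTop h3
      simp only [neg_neg] at g1 g2 g3
      exact ⟨g1, g2, g3⟩
  · intro k V f r t
    constructor
    · rintro ⟨h1, h2, h3⟩
      exact ⟨sol1_rev h1, asy1_rev tendsto_neg_atBot_atTop h2,
        asy1_rev tendsto_neg_atTop_atBot h3⟩
    · rintro ⟨h1, h2, h3⟩
      have g1 := sol1_rev h1
      have g2 := asy1_rev tendsto_neg_atTop_atBot h2
      have g3 := asy1_rev tendsto_neg_atBot_atTop h3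
      simp only [neg_neg] at g1 g2 g3
      exact ⟨g1, g2, g3⟩

end

end Pool.Agent.E8helper40.LC
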