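import Pool.Agent.E8helper19.LC.Stm3
import Pool.Agent.E8helper13.LC.D1C

/-!
# LC32: the signed first moment of the kernel, constant independent of `k`
-/

set_option autoImplicit false
open MeasureTheory Filter Topology Set

namespace Pool.Agent.E8helper40.LC

open Pool.Agent.E8helper19.LC
open Pool.Agent.E8helper25.LC (mu_bd GD)
open Pool.Agent.E8helper13.LC (near2 far2 inv_bd)

noncomputable section

theorem t_U2 (h : S_CHORD) (h2 : S_TAY) (h3 : S_G) (h4 : S_TAY2) : S_U2 := by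
  intro γ L hγ hne
  obtain ⟨c, hc, _, hch⟩ := h γ L hγ hne
  obtain ⟨C0, hC, t1, t2, -, -, -⟩ := h2 γ L hγ
  obtain ⟨C1, hC1, t3, -, t4, -⟩ := h4 γ L hγ
  obtain ⟨H, Q, hHme, hQme, hHQ0, hHQm, hG1, hG2, hHi, hQi, hH3⟩ := h3.2.2.2.2.2
  have hd : GD H Q := ⟨fun x hx => (hHQ0 x hx).1, fun x hx => (hHQ0 x hx).2,
    fun x y hx hxy => (hHQm x y hx hxy).1, fun x y hx hxy => (hHQm x y hx hxy).2, hG1, hG2, hHi,
    hQi, hH3⟩
  have hL := hγ.pos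
  set IQ := ∫ x in Ioi (0:ℝ), x ^ 7 * Q x with hIQ
  set IH := ∫ x in Ioi (0:ℝ), x ^ 6 * H x with hIH
  set IF := ∫ x in Ioi (0:ℝ), x ^ 5 * H x with hIF
  have pIQ : 0 ≤ IQ := setIntegral_nonneg measurableSet_Ioi fun x hx =>
    mul_nonneg (pow_nonneg (le_of_lt hx) _) (hd.Q0 x hx)
  have pIH : 0 ≤ IH := setIntegral_nonneg measurableSet_Ioi fun x hx =>
    mul_nonneg (pow_nonneg (le_of_lt hx) _) (hd.H0 x hx)
  have pIF : 0 ≤ IF := setIntegral_nonneg measurableSet_Ioi fun x hx =>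
    mul_nonneg (pow_nonneg (le_of_lt hx) _) (hd.H0 x hx)
  set E1 := 8192 * (C0 ^ 2 * c⁻¹ ^ 8 * IQ) + 8192 * (C1 * IH) + 2048 * (C1 * IF) with hE1
  set E2 := 65536 * (C0 * c⁻¹ ^ 7 * IH) with hE2
  have pE1 : 0 ≤ E1 := by positivity
  have pE2 : 0 ≤ E2 := by positivity
  set M := E1 * (1 + (2 * L + 1) ^ 2) + E2 with hM
  have pM : 0 ≤ M := by positivity
  refine ⟨M * Real.pi + 1, by positivity, ?_⟩
  intro k hk
  refine ⟨4 * k + 1, by linarith, ?_⟩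
  intro α hα
  have hα1 : 1 ≤ α := by linarith
  have hα0 : 0 < α := by linarith
  obtain ⟨m1, m2, m3⟩ := mu_bd hk hα
  have hμ : 0 < mu α k := by linarith
  set μ := mu α k with hμd
  have hmm : μ * μ⁻¹ = 1 := mul_inv_cancel₀ hμ.ne'
  have hmp : 0 < μ⁻¹ := inv_pos.2 hμ
  have hm : μ⁻¹ ≤ 4 / α := by
    rw [inv_le_comm₀ hμ (by positivity), inv_div]; exact m1
  have ham : α * μ⁻¹ ≤ 4 := by
    have := mul_le_mul_of_nonneg_left hm hα0.le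
    rwa [mul_div_cancel₀ _ hα0.ne'] at this
  have hm4 : μ⁻¹ ^ 4 ≤ 256 / α ^ 4 := by
    have h5 : μ⁻¹ ^ 4 ≤ (4 / α) ^ 4 := pow_le_pow_left₀ hmp.le hm 4
    refine h5.trans (le_of_eq ?_)
    rw [div_pow]; norm_num
  have hm1 : μ⁻¹ ≤ 4 := by
    refine hm.trans ?_
    rw [div_le_iff₀ hα0]
    linarith
  have b5 : α * μ⁻¹ ^ 5 ≤ 1024 / α ^ 4 := by
    calc α * μ⁻¹ ^ 5 = (α * μ⁻¹) * μ⁻¹ ^ 4 := by ring
      _ ≤ 4 * (256 / α ^ 4) := mul_le_mul ham hm4 (by positivity) (by norm_num)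
      _ = 1024 / α ^ 4 := by ring
  have b6 : α * μ⁻¹ ^ 6 ≤ 4096 / α ^ 4 := by
    calc α * μ⁻¹ ^ 6 = (α * μ⁻¹ ^ 5) * μ⁻¹ := by ring
      _ ≤ (1024 / α ^ 4) * 4 := mul_le_mul b5 hm1 hmp.le (by positivity)
      _ = 4096 / α ^ 4 := by ring
  have hα4 : 0 < α ^ 4 := by positivity
  -- the pointwise bound
  have key : ∀ s, |∫ t, (t - s) * Dk α k γ t s| ≤ M / α ^ 4 * (1 + s ^ 2)⁻¹ := by
    intro s
    have hs1 : 0 < 1 + s ^ 2 := by positivity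
    rcases le_or_gt |s| (2 * L + 1) with hs | hs
    · have hn := near2 h3 hd hHme hγ hc hch hC hC1 t1 t2 t3 t4 hα0.le hμ s
      rw [← hμd, ← hIQ, ← hIH, ← hIF] at hn
      have h6 : |∫ t, (t - s) * Dk α k γ t s| ≤ E1 / α ^ 4 := by
        refine hn.trans ?_
        have e2 : α * μ ^ 2 * C0 ^ 2 * (2 * ((μ * c)⁻¹ ^ 8 * IQ)) +
            α * μ * C1 * (2 * (μ⁻¹ ^ 7 * IH)) + α * μ * C1 * (2 * (μ⁻¹ ^ 6 * IF)) =
            2 * (α * μ⁻¹ ^ 6) * (C0 ^ 2 * c⁻¹ ^ 8 * IQ) + 2 * (α * μ⁻¹ ^ 6) * (C1 * IH) +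
            2 * (α * μ⁻¹ ^ 5) * (C1 * IF) := by
          rw [mul_inv, mul_pow]
          have hmm2 : μ ^ 2 * μ⁻¹ ^ 2 = 1 := by rw [← mul_pow, hmm, one_pow]
          linear_combination (2 * α * C0 ^ 2 * μ⁻¹ ^ 6 * c⁻¹ ^ 8 * IQ) * hmm2 +
            (2 * α * C1 * μ⁻¹ ^ 6 * IH) * hmm + (2 * α * C1 * μ⁻¹ ^ 5 * IF) * hmm
        rw [e2]
        have f1 : 2 * (α * μ⁻¹ ^ 6) * (C0 ^ 2 * c⁻¹ ^ 8 * IQ) ≤
            2 * (4096 / α ^ 4) * (C0 ^ 2 * c⁻¹ ^ 8 * IQ) := by gcongr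
        have f2 : 2 * (α * μ⁻¹ ^ 6) * (C1 * IH) ≤ 2 * (4096 / α ^ 4) * (C1 * IH) := by gcongr
        have f3 : 2 * (α * μ⁻¹ ^ 5) * (C1 * IF) ≤ 2 * (1024 / α ^ 4) * (C1 * IF) := by gcongr
        refine (add_le_add (add_le_add f1 f2) f3).trans (le_of_eq ?_)
        rw [hE1]; ring
      refine h6.trans ?_
      have h9 : s ^ 2 ≤ (2 * L + 1) ^ 2 := by
        rw [← sq_abs s]
        exact pow_le_pow_left₀ (abs_nonneg _) hs 2
      rw [← div_eq_mul_inv, le_div_iff₀ hs1, div_mul_eq_mul_div]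
      apply div_le_div_of_nonneg_right _ hα4.le
      calc E1 * (1 + s ^ 2) ≤ E1 * (1 + (2 * L + 1) ^ 2) :=
            mul_le_mul_of_nonneg_left (by linarith) pE1
        _ ≤ M := by rw [hM]; linarith
    · have hsL : L < |s| := by linarith
      have hf := far2 h3 hd hγ hc hch hC t1 t2 hα0.le hμ s hsL
      rw [← hμd, ← hIH] at hf
      have h10 : |∫ t, (t - s) * Dk α k γ t s| ≤
          (8192 / α ^ 4) * (C0 * c⁻¹ ^ 7 * IH) * (|s| - L)⁻¹ ^ 2 := by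
        refine hf.trans ?_
        have e2 : α * μ * C0 * (|s| - L)⁻¹ ^ 2 * (2 * ((μ * c)⁻¹ ^ 7 * IH)) =
            2 * (α * μ⁻¹ ^ 6) * (C0 * c⁻¹ ^ 7 * IH) * (|s| - L)⁻¹ ^ 2 := by
          rw [mul_inv, mul_pow]
          linear_combination (2 * α * C0 * (|s| - L)⁻¹ ^ 2 * μ⁻¹ ^ 6 * c⁻¹ ^ 7 * IH) * hmm
        rw [e2]
        have f1 : 2 * (α * μ⁻¹ ^ 6) ≤ 8192 / α ^ 4 := by
          calc 2 * (α * μ⁻¹ ^ 6) ≤ 2 * (4096 / α ^ 4) := by gcongr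
            _ = 8192 / α ^ 4 := by ring
        exact mul_le_mul_of_nonneg_right (mul_le_mul_of_nonneg_right f1 (by positivity))
          (by positivity)
      refine h10.trans ?_
      have h11 : (|s| - L)⁻¹ ^ 2 ≤ 8 * (1 + s ^ 2)⁻¹ := inv_bd hL hs
      calc (8192 / α ^ 4) * (C0 * c⁻¹ ^ 7 * IH) * (|s| - L)⁻¹ ^ 2 ≤
            (8192 / α ^ 4) * (C0 * c⁻¹ ^ 7 * IH) * (8 * (1 + s ^ 2)⁻¹) :=
            mul_le_mul_of_nonneg_left h11 (by positivity)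
        _ = E2 / α ^ 4 * (1 + s ^ 2)⁻¹ := by rw [hE2]; ring
        _ ≤ M / α ^ 4 * (1 + s ^ 2)⁻¹ := by
            apply mul_le_mul_of_nonneg_right _ (by positivity)
            apply div_le_div_of_nonneg_right _ hα4.le
            rw [hM]
            have : 0 ≤ E1 * (1 + (2 * L + 1) ^ 2) := by positivity
            linarith
  have hint : Integrable (fun s : ℝ => M / α ^ 4 * (1 + s ^ 2)⁻¹) :=
    integrable_inv_one_add_sq.const_mul _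
  calc ∫ s, |∫ t, (t - s) * Dk α k γ t s| ≤
        ∫ s : ℝ, M / α ^ 4 * (1 + s ^ 2)⁻¹ :=
        integral_mono_of_nonneg (Eventually.of_forall fun _ => abs_nonneg _) hint
          (Eventually.of_forall key)
    _ = M / α ^ 4 * Real.pi := by rw [integral_const_mul, integral_univ_inv_one_add_sq]
    _ ≤ (M * Real.pi + 1) / α ^ 4 := by
        rw [div_mul_eq_mul_div]
        apply div_le_div_of_nonneg_right _ hα4.le
        linarith

end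

end Pool.Agent.E8helper40.LC
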